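import Pool.Agent.H1.Weil.RH

/-!
# Point counts on `y ^ 2 = f x`
-/

namespace Pool.Agent.H1.Weil

open Polynomial Finset

noncomputable section

variable {F : Type*} [Field F] [Fintype F] [DecidableEq F] {f : F[X]} {L : Type*} [Field L]
  [Algebra F L] [Algebra.IsAlgebraic F L]

/-- Pairs `(x, y)` with coordinates in the subfield of `L` with `q ^ n` elements, `y ^ 2 = f x`. -/
def affinePoints (F : Type*) [Field F] (f : F[X]) (L : Type*) [Field L] [Algebra F L] (n : ℕ) :
    Set (L × L) :=
  {z | z.1 ^ (Nat.card F ^ n) = z.1 ∧ z.2 ^ (Nat.card F ^ n) = z.2 ∧ z.2 ^ 2 = aeval z.1 f}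

open Classical in
lemma card_fiber [IsAlgClosed L] (hF : ringChar F ≠ 2) {n : ℕ} (hn : 0 < n) {x : L}
    (hx : x ∈ FF F L n) :
    (((FF F L n).filter fun y => y ^ 2 = aeval x f).card : ℤ) =
      1 + chi f (minpoly F x) ^ (n / (minpoly F x).natDegree) := by
  have h2 : (2 : L) ≠ 0 := by
    have h2F : (2 : F) ≠ 0 := Ring.two_ne_zero hF
    rw [← map_ofNat (algebraMap F L) 2]
    exact (_root_.map_ne_zero _).mpr h2F
  have hhalf := aeval_pow_half (f := f) hF hn hx
  have hodd : Nat.card F ^ n = 2 * (Nat.card F ^ n / 2) + 1 := by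
    have h1 : Nat.card F % 2 = 1 := by
      rw [Nat.card_eq_fintype_card]; exact FiniteField.odd_card_of_char_ne_two hF
    have h2 : Nat.card F ^ n % 2 = 1 := by rw [Nat.pow_mod, h1, one_pow, Nat.one_mod]
    omega
  have hqpos : 1 < Nat.card F ^ n := Nat.one_lt_pow hn.ne' Finite.one_lt_card
  set c := aeval x f with hc
  set m := Nat.card F ^ n / 2 with hm
  have hm0 : 0 < m := by omega
  rcases chi_pow_cases f (minpoly F x) (n / (minpoly F x).natDegree) with h | h | h
  · -- c = 0
    rw [h] at hhalf ⊢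
    have hc0 : c = 0 := by
      have : c ^ m = 0 := by simpa using hhalf
      exact pow_eq_zero_iff hm0.ne' |>.mp this
    have : (FF F L n).filter (fun y => y ^ 2 = c) = {0} := by
      ext y
      rw [mem_filter, mem_singleton, mem_FF F hn, hc0]
      constructor
      · rintro ⟨-, h1⟩
        exact pow_eq_zero_iff (two_ne_zero) |>.mp h1
      · rintro rfl
        exact ⟨zero_pow (by omega), by simp⟩
    rw [this]
    simp
  · -- square
    rw [h] at hhalf ⊢
    have h1 : c ^ m = 1 := by simpa using hhalf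
    obtain ⟨y, hy⟩ := IsAlgClosed.exists_pow_nat_eq c (n := 2) (by norm_num)
    have hc0 : c ≠ 0 := by
      rintro h0
      rw [h0, zero_pow hm0.ne'] at h1
      exact zero_ne_one h1
    have hy0 : y ≠ 0 := by
      rintro rfl
      apply hc0; rw [← hy]; simp
    have hyF : y ^ (Nat.card F ^ n) = y := by
      rw [hodd, pow_succ, pow_mul, hy, h1, one_mul]
    have hnegF : (-y) ^ (Nat.card F ^ n) = -y := by
      rw [Odd.neg_pow ⟨m, hodd⟩, hyF]
    have : (FF F L n).filter (fun z => z ^ 2 = c) = {y, -y} := by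
      ext z
      rw [mem_filter, mem_insert, mem_singleton, mem_FF F hn]
      constructor
      · rintro ⟨-, h2⟩
        rw [← hy] at h2
        exact sq_eq_sq_iff_eq_or_eq_neg.mp h2
      · rintro (rfl | rfl)
        · exact ⟨hyF, hy⟩
        · exact ⟨hnegF, by rw [neg_sq, hy]⟩
    rw [this, card_pair]
    · norm_num
    · intro h3
      apply hy0
      have : (2 : L) * y = 0 := by linear_combination h3
      exact (mul_eq_zero.mp this).resolve_left h2
  · -- nonsquare
    rw [h] at hhalf ⊢
    have h1 : c ^ m = -1 := by simpa using hhalf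
    have : (FF F L n).filter (fun z => z ^ 2 = c) = ∅ := by
      rw [filter_eq_empty_iff]
      intro z hz hzc
      rw [mem_FF F hn] at hz
      have hz0 : z ≠ 0 := by
        rintro rfl
        rw [← hzc] at h1
        rw [zero_pow two_ne_zero, zero_pow hm0.ne'] at h1
        have : (1 : L) = 0 := by linear_combination h1
        exact one_ne_zero this
      rw [hodd, pow_succ, pow_mul, hzc, h1] at hz
      have : (2 : L) * z = 0 := by linear_combination -hz
      exact hz0 ((mul_eq_zero.mp this).resolve_left h2)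
    rw [this]
    simp

/-- `#{(x, y) ∈ F_(q^n)² : y² = f x} = q ^ n + S_n`. -/
theorem card_affinePoints [IsAlgClosed L] (hF : ringChar F ≠ 2) {n : ℕ} (hn : 0 < n) :
    (Nat.card (affinePoints F f L n) : ℤ) = (Nat.card F : ℤ) ^ n + SS f L n := by
  classical
  have h1 : affinePoints F f L n = (((FF F L n).sigma fun x =>
      (FF F L n).filter fun y => y ^ 2 = aeval x f).map
        ⟨fun z => (z.1, z.2), fun z w h => by
          rcases z with ⟨a, b⟩; rcases w with ⟨c, d⟩
          simp only [Prod.mk.injEq] at h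
          obtain ⟨rfl, rfl⟩ := h
          rfl⟩ : Finset (L × L)) := by
    ext ⟨x, y⟩
    simp only [coe_map, Set.mem_image, mem_coe, mem_sigma, mem_filter, mem_FF F hn]
    constructor
    · rintro ⟨h1, h2, h3⟩
      exact ⟨⟨x, y⟩, ⟨h1, h2, h3⟩, rfl⟩
    · rintro ⟨⟨a, b⟩, ⟨h1, h2, h3⟩, h⟩
      have h' : (a, b) = (x, y) := h
      obtain ⟨rfl, rfl⟩ := Prod.mk.inj h'
      exact ⟨h1, h2, h3⟩
  rw [h1, Nat.card_eq_card_toFinset, Finset.toFinset_coe, card_map, card_sigma]
  push_cast
  rw [Finset.sum_congr rfl fun x hx => card_fiber (f := f) hF hn hx, sum_add_distrib, sum_const,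
    card_FF F hn, SS]
  simp

/-- Twisting by a constant. -/
lemma SS_C_mul (d : F) (hd : d ≠ 0) {n : ℕ} (hn : 0 < n) :
    SS (C d * f) L n = (quadraticChar F d) ^ n * SS f L n := by
  unfold SS
  rw [Finset.mul_sum]
  refine Finset.sum_congr rfl fun x hx => ?_
  have hdvd : (minpoly F x).natDegree ∣ n := (mem_FF_iff_dvd F hn).mp hx
  have h1 : chi (C d * f) (minpoly F x) =
      quadraticChar F d ^ (minpoly F x).natDegree * chi f (minpoly F x) := by
    unfold chi
    rw [natDegree_C_mul hd, resultant_C_mul_right, map_mul, map_pow]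
  rw [h1, mul_pow, ← pow_mul, Nat.mul_div_cancel' hdvd]

theorem norm_SS_le [IsAlgClosed L] (hF : ringChar F ≠ 2) {g : ℕ} (hf : f.natDegree = 2 * g + 1)
    {n : ℕ} (hn : 0 < n) :
    |(SS f L n : ℝ)| ≤ 2 * g * Real.sqrt (Nat.card F) ^ n := by
  obtain ⟨ω, h1, h2⟩ := exists_eigenvalues (f := f) (L := L) hF hf
  have h3 : |(SS f L n : ℝ)| = ‖(SS f L n : ℂ)‖ := by
    rw [Complex.norm_intCast]
  rw [h3, h2 n hn, norm_neg]
  refine (norm_sum_le _ _).trans ?_
  calc ∑ i, ‖ω i ^ n‖ ≤ ∑ _i : Fin (2 * g), Real.sqrt (Nat.card F) ^ n := by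
        refine Finset.sum_le_sum fun i _ => ?_
        rw [norm_pow]
        exact pow_le_pow_left₀ (norm_nonneg _) (h1 i) n
    _ = 2 * g * Real.sqrt (Nat.card F) ^ n := by
        rw [sum_const, card_univ, Fintype.card_fin, nsmul_eq_mul]
        push_cast
        ring

end

end Pool.Agent.H1.Weil
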