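import Mathlib

/-!
# The Bombieri-Stepanov upper bound for hyperelliptic curves over a field with `Q ^ 2` elements

Let `K` be a finite field with `Q ^ 2` elements, `Q = 2 κ + 1` a power of the characteristic, and let
`f` be a polynomial over `K` of odd degree `2 g + 1 < Q`.  For each sign `η` the number of `x` in `K`
with `f x = 0` or `(f x) ^ ((Q ^ 2 - 1) / 2) = η` is less than `Q * (κ + g + 1)`.
-/

namespace Pool.Agent.H1.Weil

open Polynomial Finset

noncomputable section

variable {K : Type*} [Field K]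

/-- The polynomial `∑ a (i, t) X ^ (i Q + t)`. -/
def bigPoly (Q I A : ℕ) (a : Fin I × Fin A → K) : K[X] :=
  ∑ x : Fin I × Fin A, C (a x) * X ^ ((x.1 : ℕ) * Q + x.2)

/-- The polynomial `∑ a (i, t) ^ Q X ^ (t Q + i)`. -/
def smallPoly (Q I A : ℕ) (a : Fin I × Fin A → K) : K[X] :=
  ∑ x : Fin I × Fin A, C (a x ^ Q) * X ^ ((x.2 : ℕ) * Q + x.1)

lemma mul_add_inj {Q i j s t : ℕ} (hs : s < Q) (ht : t < Q) (h : i * Q + s = j * Q + t) :
    i = j ∧ s = t := by
  have h1 : (i * Q + s) / Q = i := by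
    rw [mul_comm, Nat.mul_add_div (by omega), Nat.div_eq_of_lt hs, add_zero]
  have h2 : (j * Q + t) / Q = j := by
    rw [mul_comm, Nat.mul_add_div (by omega), Nat.div_eq_of_lt ht, add_zero]
  have h3 : i = j := by rw [← h1, ← h2, h]
  subst h3
  exact ⟨rfl, by omega⟩

lemma bigPoly_coeff {Q I A : ℕ} (hA : A ≤ Q) (a : Fin I × Fin A → K) (x : Fin I × Fin A) :
    (bigPoly Q I A a).coeff ((x.1 : ℕ) * Q + x.2) = a x := by
  classical
  rw [bigPoly, finsetSum_coeff, Finset.sum_eq_single x]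
  · simp
  · intro y _ hy
    simp only [coeff_C_mul, coeff_X_pow, mul_ite, mul_one, mul_zero, ite_eq_right_iff]
    intro h
    exfalso
    apply hy
    obtain ⟨h1, h2⟩ := mul_add_inj (lt_of_lt_of_le x.2.2 hA) (lt_of_lt_of_le y.2.2 hA) h
    exact Prod.ext (Fin.ext h1.symm) (Fin.ext h2.symm)
  · simp

lemma exists_of_bigPoly_coeff_ne_zero {Q I A : ℕ} (a : Fin I × Fin A → K) {n : ℕ}
    (h : (bigPoly Q I A a).coeff n ≠ 0) : ∃ x : Fin I × Fin A, n = (x.1 : ℕ) * Q + x.2 := by
  classical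
  rw [bigPoly, finsetSum_coeff] at h
  obtain ⟨x, _, hx⟩ := Finset.exists_ne_zero_of_sum_ne_zero h
  refine ⟨x, ?_⟩
  by_contra hne
  apply hx
  simp [coeff_X_pow, hne]

lemma bigPoly_eq_zero {Q I A : ℕ} (hA : A ≤ Q) (a : Fin I × Fin A → K)
    (h : bigPoly Q I A a = 0) : a = 0 := by
  funext x
  rw [← bigPoly_coeff hA a x, h]
  simp

lemma bigPoly_natDegree_mod {Q I A : ℕ} (hA : A ≤ Q) (a : Fin I × Fin A → K)
    (h : bigPoly Q I A a ≠ 0) : (bigPoly Q I A a).natDegree % Q < A := by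
  obtain ⟨x, hx⟩ := exists_of_bigPoly_coeff_ne_zero (Q := Q) a
    (n := (bigPoly Q I A a).natDegree) (by simpa using h)
  rw [hx, mul_comm, Nat.mul_add_mod, Nat.mod_eq_of_lt (lt_of_lt_of_le x.2.2 hA)]
  exact x.2.2

lemma bigPoly_natDegree_lt {Q I A : ℕ} (hA : A ≤ Q) (hQ : 0 < Q) (hI : 0 < I)
    (a : Fin I × Fin A → K) : (bigPoly Q I A a).natDegree < I * Q := by
  by_cases h : bigPoly Q I A a = 0
  · rw [h]; simp [hI, hQ]
  obtain ⟨x, hx⟩ := exists_of_bigPoly_coeff_ne_zero (Q := Q) a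
    (n := (bigPoly Q I A a).natDegree) (by simpa using h)
  rw [hx]
  have h1 : (x.1 : ℕ) + 1 ≤ I := x.1.2
  have h2 : (x.2 : ℕ) < Q := lt_of_lt_of_le x.2.2 hA
  calc (x.1 : ℕ) * Q + x.2 < (x.1 : ℕ) * Q + Q := by omega
    _ = ((x.1 : ℕ) + 1) * Q := by ring
    _ ≤ I * Q := Nat.mul_le_mul_right _ h1


lemma smallPoly_natDegree_le {Q I A : ℕ} (a : Fin (I + 1) × Fin (A + 1) → K) :
    (smallPoly Q (I + 1) (A + 1) a).natDegree ≤ A * Q + I := by
  apply natDegree_sum_le_of_forall_le
  intro x _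
  refine (natDegree_C_mul_X_pow_le _ _).trans ?_
  have h1 : (x.1 : ℕ) ≤ I := Nat.lt_succ_iff.mp x.1.2
  have h2 : (x.2 : ℕ) ≤ A := Nat.lt_succ_iff.mp x.2.2
  exact Nat.add_le_add (Nat.mul_le_mul_right _ h2) h1

lemma smallPoly_add {p μ : ℕ} [Fact p.Prime] [CharP K p] {I A : ℕ} (a b : Fin I × Fin A → K) :
    smallPoly (p ^ μ) I A (a + b) = smallPoly (p ^ μ) I A a + smallPoly (p ^ μ) I A b := by
  simp only [smallPoly, Pi.add_apply, add_pow_char_pow, C_add, add_mul, Finset.sum_add_distrib]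

lemma bigPoly_eval_pow {p μ : ℕ} [Fact p.Prime] [CharP K p] {I A : ℕ} (a : Fin I × Fin A → K)
    (x : K) (hx : x ^ (p ^ μ * p ^ μ) = x) :
    (eval x (bigPoly (p ^ μ) I A a)) ^ (p ^ μ) = eval x (smallPoly (p ^ μ) I A a) := by
  simp only [bigPoly, smallPoly, eval_finsetSum, eval_mul, eval_C, eval_pow, eval_X]
  rw [sum_pow_char_pow]
  refine Finset.sum_congr rfl fun i _ => ?_
  rw [mul_pow, ← pow_mul, add_mul, pow_add, mul_assoc (i.1 : ℕ), mul_comm (i.1 : ℕ), pow_mul, hx,
    pow_add]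
  ring

/-- The main counting lemma of the Bombieri-Stepanov method. -/
theorem card_lt [Fintype K] [DecidableEq K] {p μ : ℕ} [Fact p.Prime] [CharP K p] {κ g : ℕ}
    (hQ : p ^ μ = 2 * κ + 1) (hK : Fintype.card K = p ^ μ * p ^ μ) (hg : g < κ) (f : K[X])
    (hf : f.natDegree = 2 * g + 1) (η : K) :
    (univ.filter fun x : K => eval x f = 0 ∨ (eval x f) ^ (2 * κ * (κ + 1)) = η).card
      < (p ^ μ) * (κ + g + 1) := by
  classical
  set Q := p ^ μ with hQdef
  -- the index sets
  let G := (Fin (κ + g + 1) × Fin (κ + 1) → K) × (Fin (κ + 1) × Fin (κ - g) → K)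
  let E := κ * Q + (κ + g + 1)
  -- the additive map
  let Φ : G → K[X] := fun a =>
    smallPoly Q (κ + g + 1) (κ + 1) a.1 + C η * f ^ (κ + 1) * smallPoly Q (κ + 1) (κ - g) a.2
  have hΦadd : ∀ a b : G, Φ (a + b) = Φ a + Φ b := by
    intro a b
    have e1 : smallPoly Q (κ + g + 1) (κ + 1) (a + b).1 = _ := smallPoly_add a.1 b.1
    have e2 : smallPoly Q (κ + 1) (κ - g) (a + b).2 = _ := smallPoly_add a.2 b.2
    simp only [Φ]
    rw [e1, e2]
    ring
  let Ψ : G →+ (Fin E → K) :=
    { toFun := fun a n => (Φ a).coeff n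
      map_zero' := by
        funext n
        have : Φ 0 = 0 := by
          have := hΦadd 0 0
          simpa using this
        simp [this]
      map_add' := by
        intro a b
        funext n
        simp [hΦadd] }
  have hcardG : Fintype.card G = Fintype.card K ^ ((κ + g + 1) * (κ + 1) + (κ + 1) * (κ - g)) := by
    simp [G, pow_add]
  have hcardE : Fintype.card (Fin E → K) = Fintype.card K ^ E := by simp
  have hlt : Fintype.card (Fin E → K) < Fintype.card G := by
    rw [hcardG, hcardE]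
    apply Nat.pow_lt_pow_right Fintype.one_lt_card
    have h1 : (κ + 1) * (κ - g) + (κ + g + 1) * (κ + 1) = (κ + 1) * (2 * κ + 1) := by
      obtain ⟨c, rfl⟩ := Nat.exists_eq_add_of_lt hg
      have : g + c + 1 - g = c + 1 := by omega
      rw [this]
      ring
    simp only [E]
    rw [hQ]
    nlinarith [h1]
  obtain ⟨a, b, hne, hab⟩ := Fintype.exists_ne_map_eq_of_card_lt Ψ hlt
  -- a nonzero element of the kernel
  obtain ⟨w, hw0, hw⟩ : ∃ w : G, w ≠ 0 ∧ Ψ w = 0 :=
    ⟨a - b, sub_ne_zero.mpr hne, by rw [map_sub, hab, sub_self]⟩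
  obtain ⟨c, hc⟩ := Nat.exists_eq_add_of_lt hg
  have hκg : κ - g = c + 1 := by omega
  have hdegΦ : (Φ w).natDegree < E := by
    have e1 : (smallPoly Q (κ + g + 1) (κ + 1) w.1).natDegree ≤ κ * Q + (κ + g) :=
      smallPoly_natDegree_le _
    have e2 : (smallPoly Q (κ + 1) (κ - g) w.2).natDegree ≤ c * Q + κ := by
      generalize w.2 = v
      revert v
      rw [hκg]
      intro v
      exact smallPoly_natDegree_le v
    have e3 : (C η * f ^ (κ + 1) * smallPoly Q (κ + 1) (κ - g) w.2).natDegree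
        ≤ (κ + 1) * (2 * g + 1) + (c * Q + κ) := by
      refine natDegree_mul_le.trans (Nat.add_le_add ?_ e2)
      refine (natDegree_C_mul_le _ _).trans ?_
      refine natDegree_pow_le.trans ?_
      rw [hf]
    have e4 := natDegree_add_le_of_degree_le (e1.trans (le_max_left _ ((κ + 1) * (2 * g + 1) + (c * Q + κ))))
      (e3.trans (le_max_right (κ * Q + (κ + g)) _))
    refine lt_of_le_of_lt e4 (max_lt ?_ ?_)
    · simp only [E]; omega
    · simp only [E]
      rw [hQ, hc]
      ring_nf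
      nlinarith
  have hΦw : Φ w = 0 := by
    ext n
    by_cases hn : n < E
    · have := congrFun hw ⟨n, hn⟩
      simpa [Ψ] using this
    · rw [coeff_eq_zero_of_natDegree_lt (by omega)]
      simp
  -- the auxiliary polynomial
  let u : K[X] := bigPoly Q (κ + g + 1) (κ + 1) w.1 + f ^ (κ + 1) * bigPoly Q (κ + 1) (κ - g) w.2
  have hf0 : f ≠ 0 := by
    rintro rfl
    simp at hf
  have hdeg2 : w.2 ≠ 0 → (f ^ (κ + 1) * bigPoly Q (κ + 1) (κ - g) w.2).natDegree
      = (κ + 1) * (2 * g + 1) + (bigPoly Q (κ + 1) (κ - g) w.2).natDegree := by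
    intro h
    have hb : bigPoly Q (κ + 1) (κ - g) w.2 ≠ 0 := fun h0 => h (bigPoly_eq_zero (by omega) _ h0)
    rw [natDegree_mul (pow_ne_zero _ hf0) hb, natDegree_pow, hf]
  have hu0 : u ≠ 0 := by
    intro hu
    by_cases h2 : w.2 = 0
    · have hb0 : bigPoly Q (κ + 1) (κ - g) w.2 = 0 := by
        rw [h2]; simp [bigPoly]
      have : bigPoly Q (κ + g + 1) (κ + 1) w.1 = 0 := by
        simpa [u, hb0] using hu
      exact hw0 (Prod.ext (bigPoly_eq_zero (by omega) _ this) h2)
    · have hb : bigPoly Q (κ + 1) (κ - g) w.2 ≠ 0 := fun h0 => h2 (bigPoly_eq_zero (by omega) _ h0)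
      have h3 : bigPoly Q (κ + g + 1) (κ + 1) w.1 = -(f ^ (κ + 1) * bigPoly Q (κ + 1) (κ - g) w.2) :=
        eq_neg_of_add_eq_zero_left hu
      have h1 : bigPoly Q (κ + g + 1) (κ + 1) w.1 ≠ 0 := by
        rw [h3, neg_ne_zero]
        exact mul_ne_zero (pow_ne_zero _ hf0) hb
      have m1 := bigPoly_natDegree_mod (Q := Q) (by omega) _ h1
      have m2 := bigPoly_natDegree_mod (Q := Q) (by omega) _ hb
      rw [h3, natDegree_neg, hdeg2 h2] at m1
      set n := (bigPoly Q (κ + 1) (κ - g) w.2).natDegree with hn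
      have e1 : (κ + 1) * (2 * g + 1) = Q * g + (g + κ + 1) := by
        rw [hQ]; ring
      have e2 : n = Q * (n / Q) + n % Q := (Nat.div_add_mod n Q).symm
      have e3 : ((κ + 1) * (2 * g + 1) + n) % Q = g + κ + 1 + n % Q := by
        rw [e1]
        conv_lhs => rw [e2]
        rw [show Q * g + (g + κ + 1) + (Q * (n / Q) + n % Q)
          = Q * (g + n / Q) + (g + κ + 1 + n % Q) by ring, Nat.mul_add_mod]
        apply Nat.mod_eq_of_lt
        omega
      omega
  have hudeg : u.natDegree < Q * (κ + g + 1) := by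
    have e1 : (bigPoly Q (κ + g + 1) (κ + 1) w.1).natDegree < (κ + g + 1) * Q :=
      bigPoly_natDegree_lt (by omega) (by omega) (by omega) _
    have e2 : (f ^ (κ + 1) * bigPoly Q (κ + 1) (κ - g) w.2).natDegree < (κ + g + 1) * Q := by
      by_cases h2 : w.2 = 0
      · have hb0 : bigPoly Q (κ + 1) (κ - g) w.2 = 0 := by
          rw [h2]; simp [bigPoly]
        rw [hb0]
        simp only [mul_zero, natDegree_zero]
        have : 0 < Q := by omega
        positivity
      · rw [hdeg2 h2]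
        have hb : bigPoly Q (κ + 1) (κ - g) w.2 ≠ 0 :=
          fun h0 => h2 (bigPoly_eq_zero (by omega) _ h0)
        obtain ⟨x, hx⟩ := exists_of_bigPoly_coeff_ne_zero (Q := Q) w.2
          (n := (bigPoly Q (κ + 1) (κ - g) w.2).natDegree) (by simpa using hb)
        rw [hx]
        have h3 : (x.1 : ℕ) ≤ κ := Nat.lt_succ_iff.mp x.1.2
        have h4 : (x.2 : ℕ) < κ - g := x.2.2
        have h5 : (x.1 : ℕ) * Q ≤ κ * Q := Nat.mul_le_mul_right _ h3
        have e1 : (κ + 1) * (2 * g + 1) = g * Q + (g + κ + 1) := by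
          rw [hQ]; ring
        rw [e1]
        have : (κ + g + 1) * Q = κ * Q + g * Q + Q := by ring
        omega
    rw [mul_comm]
    exact lt_of_le_of_lt (natDegree_add_le _ _) (max_lt e1 e2)
  have huroot : ∀ x : K, eval x f = 0 ∨ (eval x f) ^ (2 * κ * (κ + 1)) = η → eval x u = 0 := by
    intro x hx
    have hxQ : x ^ (p ^ μ * p ^ μ) = x := by
      rw [← hQdef, ← hK]
      exact FiniteField.pow_card x
    have h1 : (eval x u) ^ Q = 0 := by
      simp only [u, eval_add, eval_mul, eval_pow]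
      rw [hQdef, add_pow_char_pow, mul_pow, bigPoly_eval_pow _ _ hxQ, bigPoly_eval_pow _ _ hxQ]
      have h2 := congrArg (eval x) hΦw
      simp only [Φ, eval_add, eval_mul, eval_pow, eval_C, eval_zero] at h2
      rcases hx with hx | hx
      · rw [hx] at h2 ⊢
        simp only [ne_eq, Nat.add_eq_zero_iff, one_ne_zero, and_false, not_false_eq_true, zero_pow,
          mul_zero, zero_mul, add_zero] at h2
        rw [h2, zero_pow (by omega), zero_pow (by omega)]
        simp
      · rw [← h2, ← pow_mul]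
        congr 2
        rw [← hx, ← pow_add]
        congr 1
        rw [← hQdef, hQ]
        ring
    exact pow_eq_zero_iff (by omega) |>.mp h1
  calc (univ.filter fun x : K => eval x f = 0 ∨ (eval x f) ^ (2 * κ * (κ + 1)) = η).card
      ≤ u.roots.toFinset.card := by
        apply Finset.card_le_card
        intro x hx
        simp only [mem_filter, mem_univ, true_and] at hx
        simp only [Multiset.mem_toFinset, mem_roots hu0, IsRoot.def]
        exact huroot x hx
    _ ≤ Multiset.card u.roots := Multiset.toFinset_card_le _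
    _ ≤ u.natDegree := card_roots' u
    _ < Q * (κ + g + 1) := hudeg

end

end Pool.Agent.H1.Weil
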