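import Pool.Agent.H1.Weil.Local
import Pool.Agent.H1.Weil.Bombieri

/-!
# The bound for the character sums over extensions of even degree
-/

namespace Pool.Agent.H1.Weil

open Polynomial Finset

noncomputable section

variable {F : Type*} [Field F] [Fintype F] [DecidableEq F] {f : F[X]} {L : Type*} [Field L]
  [Algebra F L] [Algebra.IsAlgebraic F L]

lemma chi_pow_cases (f : F[X]) (h : F[X]) (n : ℕ) :
    chi f h ^ n = 0 ∨ chi f h ^ n = 1 ∨ chi f h ^ n = -1 := by
  have h1 : chi f h = 0 ∨ chi f h = 1 ∨ chi f h = -1 := by
    unfold chi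
    by_cases h0 : resultant h f h.natDegree f.natDegree = 0
    · left; rw [h0]; simp
    · right; exact quadraticChar_dichotomy h0
  rcases h1 with h1 | h1 | h1
  · rw [h1]
    by_cases hn : n = 0
    · right; left; simp [hn]
    · left; exact zero_pow hn
  · rw [h1]; right; left; exact one_pow n
  · rw [h1]; right; exact neg_one_pow_eq_or ℤ n

theorem abs_SS_even_le [IsAlgClosed L] (hF : ringChar F ≠ 2) {g κ i : ℕ} (hi : 0 < i)
    (hκ : Nat.card F ^ i = 2 * κ + 1) (hg : g < κ) (hf : f.natDegree = 2 * g + 1) :
    |SS f L (2 * i)| ≤ (2 * g + 1) * (Nat.card F : ℤ) ^ i := by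
  classical
  obtain ⟨p, hp⟩ := CharP.exists F
  have hpp : Fact p.Prime := ⟨CharP.char_is_prime F p⟩
  obtain ⟨m, -, hm⟩ := FiniteField.card F p
  have hne : NeZero (2 * i) := ⟨by omega⟩
  let K := FiniteField.Extension F p (2 * i)
  have : Fintype K := Fintype.ofFinite K
  have hcardK : Fintype.card K = Nat.card F ^ (2 * i) := by
    rw [← Nat.card_eq_fintype_card]
    exact FiniteField.natCard_extension F p (2 * i)
  have hcharK : CharP K p := charP_of_injective_algebraMap (algebraMap F K).injective p
  have : Algebra.IsAlgebraic F K := Algebra.IsAlgebraic.of_finite F K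
  let ι : K →ₐ[F] L := IsAlgClosed.lift
  have hιinj : Function.Injective ι := ι.toRingHom.injective
  have hQp : p ^ (m * i : ℕ) = Nat.card F ^ i := by
    rw [Nat.card_eq_fintype_card, hm, ← pow_mul]
  have h2i : 0 < 2 * i := by omega
  -- the image of `ι`
  have himage : (univ : Finset K).image ι = FF F L (2 * i) := by
    apply Finset.eq_of_subset_of_card_le
    · intro y hy
      rw [mem_image] at hy
      obtain ⟨x, _, rfl⟩ := hy
      rw [mem_FF F h2i, ← map_pow, ← hcardK, FiniteField.pow_card]
    · rw [card_FF F h2i, Finset.card_image_of_injective _ hιinj, card_univ, hcardK]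
  let eps : L → ℤ := fun x => chi f (minpoly F x) ^ (2 * i / (minpoly F x).natDegree)
  have hS : SS f L (2 * i) = ∑ x : K, eps (ι x) := by
    rw [SS, ← himage, Finset.sum_image (fun x _ y _ h => hιinj h)]
  have heps : ∀ x : L, eps x = 0 ∨ eps x = 1 ∨ eps x = -1 := fun x => chi_pow_cases f _ _
  -- characteristic not two
  have h2L : (2 : L) ≠ 0 := by
    intro h
    have hL : CharP L p := charP_of_injective_algebraMap (algebraMap F L).injective p
    have h3 : p = 2 := by
      have h4 : ((2 : ℕ) : L) = 0 := by exact_mod_cast h
      have h5 := (CharP.cast_eq_zero_iff L p 2).mp h4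
      exact (Nat.prime_dvd_prime_iff_eq hpp.out Nat.prime_two).mp h5
    apply hF
    rw [← h3]
    exact ringChar.eq F p
  -- the exponent
  have hexp : Nat.card F ^ (2 * i) / 2 = 2 * κ * (κ + 1) := by
    rw [mul_comm 2 i, pow_mul, hκ]
    have : (2 * κ + 1) ^ 2 = 2 * (2 * κ * (κ + 1)) + 1 := by ring
    omega
  have hval : ∀ x : K, ι ((eval x (f.map (algebraMap F K))) ^ (2 * κ * (κ + 1))) =
      ((eps (ι x) : ℤ) : L) := by
    intro x
    have hx : ι x ∈ FF F L (2 * i) := by
      rw [← himage]; exact mem_image_of_mem _ (mem_univ _)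
    rw [← aeval_pow_half hF h2i hx, hexp, map_pow, eval_map_algebraMap]
    congr 1
    exact (aeval_algHom_apply ι x f).symm
  have hfK : (f.map (algebraMap F K)).natDegree = 2 * g + 1 := by
    rw [natDegree_map, hf]
  have hKK : Fintype.card K = p ^ (m * i : ℕ) * p ^ (m * i : ℕ) := by
    rw [hQp, hcardK, two_mul, pow_add]
  have hb : ∀ η : ℤ, (η = 1 ∨ η = -1) →
      ((univ.filter fun x : K => eps (ι x) = 0).card +
        (univ.filter fun x : K => eps (ι x) = η).card) < Nat.card F ^ i * (κ + g + 1) := by
    intro η hη
    have h1 := card_lt (p := p) (μ := m * i) (by rw [hQp, hκ]) hKK hg (f.map (algebraMap F K)) hfK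
      (η : K)
    rw [hQp] at h1
    refine lt_of_le_of_lt ?_ h1
    rw [← Finset.card_union_of_disjoint]
    · apply Finset.card_le_card
      intro x hx
      rw [mem_union, mem_filter, mem_filter] at hx
      rw [mem_filter]
      refine ⟨mem_univ _, ?_⟩
      rcases hx with hx | hx
      · left
        have h2 := hval x
        rw [hx.2, Int.cast_zero, map_eq_zero_iff ι hιinj] at h2
        exact (pow_eq_zero_iff (by
          have : 0 < κ := by omega
          positivity)).mp h2
      · right
        apply hιinj
        rw [hval x, hx.2]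
        exact (map_intCast ι η).symm
    · rw [Finset.disjoint_filter]
      intro x _ h2 h3
      rw [h2] at h3
      rcases hη with h | h <;> omega
  have htot : (univ.filter fun x : K => eps (ι x) = 0).card +
      (univ.filter fun x : K => eps (ι x) = 1).card +
      (univ.filter fun x : K => eps (ι x) = -1).card = Nat.card F ^ i * (2 * κ + 1) := by
    rw [← Finset.card_union_of_disjoint, ← Finset.card_union_of_disjoint]
    · have : ((univ.filter fun x : K => eps (ι x) = 0) ∪ (univ.filter fun x : K => eps (ι x) = 1) ∪
        (univ.filter fun x : K => eps (ι x) = -1)) = univ := by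
        ext x
        simp only [mem_union, mem_filter, mem_univ, true_and, iff_true]
        rcases heps (ι x) with h | h | h
        · left; left; exact h
        · left; right; exact h
        · right; exact h
      rw [this, card_univ, hcardK, two_mul, pow_add, ← hκ]
    · rw [Finset.disjoint_left]
      intro x hx
      simp only [mem_union, mem_filter, mem_univ, true_and] at hx ⊢
      rcases hx with h | h <;> rw [h] <;> decide
    · rw [Finset.disjoint_filter]
      intro x _ h2 h3
      rw [h2] at h3
      omega
  have hsum : SS f L (2 * i) = ((univ.filter fun x : K => eps (ι x) = 1).card : ℤ) -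
      ((univ.filter fun x : K => eps (ι x) = -1).card : ℤ) := by
    rw [hS, Finset.card_filter, Finset.card_filter]
    push_cast
    rw [← Finset.sum_sub_distrib]
    refine Finset.sum_congr rfl fun x _ => ?_
    rcases heps (ι x) with h | h | h <;> rw [h] <;> simp
  have hb1 := hb 1 (Or.inl rfl)
  have hb2 := hb (-1) (Or.inr rfl)
  rw [hsum]
  generalize (univ.filter fun x : K => eps (ι x) = 0).card = a0 at *
  generalize (univ.filter fun x : K => eps (ι x) = 1).card = a1 at *
  generalize (univ.filter fun x : K => eps (ι x) = -1).card = a2 at *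
  have h3 : (Nat.card F : ℤ) ^ i = ((Nat.card F ^ i : ℕ) : ℤ) := by push_cast; rfl
  rw [h3]
  generalize Nat.card F ^ i = Q at *
  zify at hb1 hb2 htot
  rw [abs_le]
  constructor <;> nlinarith

end

end Pool.Agent.H1.Weil
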