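import Mathlib

/-!
# The L-polynomial of the quadratic character `x ↦ χ (f x)` over a finite field

`F` is a finite field of odd characteristic, `f` a polynomial over `F` of odd degree.
-/

namespace Pool.Agent.H1.Weil

open Polynomial Finset

noncomputable section

section Monics

variable (F : Type*) [Field F] [Finite F]

lemma finite_monics (n : ℕ) : {h : F[X] | h.Monic ∧ h.natDegree = n}.Finite := by
  have : Set.InjOn (fun (h : F[X]) (i : Fin n) => h.coeff i)
      {h : F[X] | h.Monic ∧ h.natDegree = n} := by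
    intro h hh k hk heq
    ext i
    rcases lt_trichotomy i n with hi | hi | hi
    · exact congrFun heq ⟨i, hi⟩
    · have h1 := hh.1.coeff_natDegree
      have h2 := hk.1.coeff_natDegree
      rw [hh.2] at h1
      rw [hk.2] at h2
      rw [hi, h1, h2]
    · rw [coeff_eq_zero_of_natDegree_lt (by rw [hh.2]; exact hi),
        coeff_eq_zero_of_natDegree_lt (by rw [hk.2]; exact hi)]
  exact Set.Finite.of_injOn (Set.mapsTo_univ _ _) this Set.finite_univ

/-- The finite set of monic polynomials of degree `n`. -/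
def monics (n : ℕ) : Finset F[X] := (finite_monics F n).toFinset

variable {F}

lemma mem_monics {n : ℕ} {h : F[X]} : h ∈ monics F n ↔ h.Monic ∧ h.natDegree = n := by
  simp [monics]

lemma monics_zero : monics F 0 = {1} := by
  ext h
  rw [mem_monics, Finset.mem_singleton]
  constructor
  · rintro ⟨h1, h2⟩
    exact h1.natDegree_eq_zero.mp h2
  · rintro rfl
    simp

end Monics

section Chi

variable {F : Type*} [Field F] [Fintype F] [DecidableEq F] (f : F[X])

/-- The multiplicative function `h ↦ χ (Res (h, f))`. -/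
def chi (h : F[X]) : ℤ := quadraticChar F (resultant h f h.natDegree f.natDegree)

lemma chi_mul {h k : F[X]} (hh : h ≠ 0) (hk : k ≠ 0) : chi f (h * k) = chi f h * chi f k := by
  unfold chi
  rw [natDegree_mul hh hk, resultant_mul_left _ _ _ _ le_rfl, map_mul]

lemma chi_one : chi f 1 = 1 := by
  unfold chi
  rw [resultant_one_left]
  simp

lemma chi_pow {h : F[X]} (hh : h ≠ 0) (n : ℕ) : chi f (h ^ n) = chi f h ^ n := by
  induction n with
  | zero => simp [chi_one]
  | succ n ih => rw [pow_succ, chi_mul f (pow_ne_zero _ hh) hh, ih, pow_succ]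

/-- The coefficients of the L-polynomial. -/
def cc (n : ℕ) : ℤ := ∑ h ∈ monics F n, chi f h

lemma cc_zero : cc f 0 = 1 := by
  rw [cc, monics_zero, Finset.sum_singleton, chi_one]

variable {f}

/-- The twisting map on monic polynomials. -/
def twist (f : F[X]) (n : ℕ) (c : F) (h : F[X]) : F[X] :=
  C c * h + f * (C ((1 - c) * f.leadingCoeff⁻¹) * X ^ (n - f.natDegree))

lemma twist_aux (hf : f ≠ 0) {n : ℕ} (hn : f.natDegree ≤ n) (a : F) :
    (f * (C (a * f.leadingCoeff⁻¹) * X ^ (n - f.natDegree))).natDegree ≤ n ∧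
    (f * (C (a * f.leadingCoeff⁻¹) * X ^ (n - f.natDegree))).coeff n = a := by
  constructor
  · refine natDegree_mul_le.trans ?_
    have : (C (a * f.leadingCoeff⁻¹) * X ^ (n - f.natDegree) : F[X]).natDegree
        ≤ n - f.natDegree := natDegree_C_mul_X_pow_le _ _
    omega
  · rw [← mul_assoc, show n = f.natDegree + (n - f.natDegree) by omega]
    rw [Nat.add_sub_cancel_left, coeff_mul_X_pow, mul_comm f, coeff_C_mul, coeff_natDegree,
      mul_assoc, inv_mul_cancel₀ (leadingCoeff_ne_zero.mpr hf), mul_one]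

lemma twist_mem (hf : f ≠ 0) {n : ℕ} (hn : f.natDegree ≤ n) (c : F) {h : F[X]}
    (hh : h ∈ monics F n) : twist f n c h ∈ monics F n := by
  rw [mem_monics] at hh ⊢
  obtain ⟨h1, h2⟩ := twist_aux hf hn (1 - c)
  have h3 : (twist f n c h).natDegree ≤ n := by
    refine natDegree_add_le_of_degree_le ?_ h1
    exact (natDegree_C_mul_le _ _).trans hh.2.le
  have h4 : (twist f n c h).coeff n = 1 := by
    rw [twist, coeff_add, h2, coeff_C_mul]
    have : h.coeff n = 1 := by rw [← hh.2]; exact hh.1.coeff_natDegree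
    rw [this]
    ring
  have h5 : (twist f n c h).natDegree = n :=
    natDegree_eq_of_le_of_coeff_ne_zero h3 (by rw [h4]; exact one_ne_zero)
  refine ⟨?_, h5⟩
  rw [Monic, leadingCoeff, h5, h4]

lemma twist_twist (n : ℕ) {c : F} (hc : c ≠ 0) (h : F[X]) :
    twist f n c⁻¹ (twist f n c h) = h := by
  simp only [twist, mul_add, ← mul_assoc, ← C_mul]
  rw [inv_mul_cancel₀ hc]
  have : (C c⁻¹ * f * C ((1 - c) * f.leadingCoeff⁻¹) * X ^ (n - f.natDegree) +
      f * C ((1 - c⁻¹) * f.leadingCoeff⁻¹) * X ^ (n - f.natDegree) : F[X]) = 0 := by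
    have h1 : (C c⁻¹ * f * C ((1 - c) * f.leadingCoeff⁻¹) * X ^ (n - f.natDegree) +
      f * C ((1 - c⁻¹) * f.leadingCoeff⁻¹) * X ^ (n - f.natDegree) : F[X]) =
      C (c⁻¹ * ((1 - c) * f.leadingCoeff⁻¹) + (1 - c⁻¹) * f.leadingCoeff⁻¹) * f *
        X ^ (n - f.natDegree) := by
      simp only [C_add, C_mul]
      ring
    rw [h1]
    have : c⁻¹ * ((1 - c) * f.leadingCoeff⁻¹) + (1 - c⁻¹) * f.leadingCoeff⁻¹ = 0 := by
      field_simp
      ring
    rw [this]
    simp
  rw [add_assoc, this]
  simp

lemma chi_twist (hf : f ≠ 0) {n : ℕ} (hn : f.natDegree ≤ n) (c : F) {h : F[X]}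
    (hh : h ∈ monics F n) :
    chi f (twist f n c h) = quadraticChar F c ^ f.natDegree * chi f h := by
  have h1 := twist_mem hf hn c hh
  rw [mem_monics] at h1 hh
  unfold chi
  rw [h1.2, hh.2, twist, resultant_add_mul_left _ _ _ _ _ ?_ le_rfl, resultant_C_mul_left,
    map_mul, map_pow]
  have : (C ((1 - c) * f.leadingCoeff⁻¹) * X ^ (n - f.natDegree) : F[X]).natDegree
        ≤ n - f.natDegree := natDegree_C_mul_X_pow_le _ _
  omega

lemma cc_eq_zero (hF : ringChar F ≠ 2) (hodd : Odd f.natDegree) {n : ℕ} (hn : f.natDegree ≤ n) :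
    cc f n = 0 := by
  have hf : f ≠ 0 := by
    rintro rfl
    simp at hodd
  obtain ⟨c, hc⟩ := quadraticChar_exists_neg_one (F := F) hF
  have hc0 : c ≠ 0 := by
    rintro rfl
    simp at hc
  have key : cc f n = - cc f n := by
    calc cc f n = ∑ h ∈ monics F n, chi f (twist f n c h) := by
          symm
          refine Finset.sum_nbij' (twist f n c) (twist f n c⁻¹) ?_ ?_ ?_ ?_ ?_
          · intro h hh; exact twist_mem hf hn c hh
          · intro h hh; exact twist_mem hf hn _ hh
          · intro h _; exact twist_twist n hc0 h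
          · intro h _
            have := twist_twist (f := f) n (inv_ne_zero hc0) h
            rwa [inv_inv] at this
          · intro h _; rfl
      _ = ∑ h ∈ monics F n, (-1) * chi f h := by
          refine Finset.sum_congr rfl fun h hh => ?_
          rw [chi_twist hf hn c hh, hc, hodd.neg_one_pow]
      _ = - cc f n := by rw [← Finset.mul_sum]; simp [cc]
  omega

end Chi

end

end Pool.Agent.H1.Weil
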