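import Pool.Agent.H1.Weil.Newton

/-!
# The quadratic character of `f x` for `x` in the field with `q ^ j` elements
-/

namespace Pool.Agent.H1.Weil

open Polynomial Finset

noncomputable section

variable {F : Type*} [Field F] [Fintype F] {L : Type*} [Field L] [Algebra F L]

lemma aeval_pow_card (P : F[X]) (x : L) (i : ℕ) :
    aeval (x ^ (Nat.card F ^ i)) P = (aeval x P) ^ (Nat.card F ^ i) := by
  induction i with
  | zero => simp
  | succ i ih =>
    rw [pow_succ, pow_mul, pow_mul, ← ih]
    have := aeval_algHom_apply (FiniteField.frobeniusAlgHom F L) (x ^ (Nat.card F ^ i)) P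
    simpa [FiniteField.coe_frobeniusAlgHom, Nat.card_eq_fintype_card] using this

lemma pow_card_injective (i : ℕ) : Function.Injective (fun x : L => x ^ (Nat.card F ^ i)) := by
  obtain ⟨p, hp⟩ := CharP.exists F
  have hpp : Fact p.Prime := ⟨CharP.char_is_prime F p⟩
  have : CharP L p := charP_of_injective_algebraMap (algebraMap F L).injective p
  obtain ⟨n, -, hn⟩ := FiniteField.card F p
  rw [Nat.card_eq_fintype_card, hn, ← pow_mul]
  intro x y h
  exact iterateFrobenius_inj L p _ (by simpa [iterateFrobenius_def] using h)

variable [Algebra.IsAlgebraic F L]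

lemma roots_minpoly [IsAlgClosed L] (x : L) :
    ((minpoly F x).map (algebraMap F L)).roots =
      Multiset.map (fun i => x ^ (Nat.card F ^ i)) (Multiset.range (minpoly F x).natDegree) := by
  classical
  have hx : IsIntegral F x := Algebra.IsIntegral.isIntegral x
  have h0 : (minpoly F x).map (algebraMap F L) ≠ 0 := map_ne_zero (minpoly.ne_zero hx)
  symm
  have hinj : Set.InjOn (fun i => x ^ (Nat.card F ^ i))
      (Finset.range (minpoly F x).natDegree : Set ℕ) := by
    have key : ∀ a b : ℕ, a < b → b < (minpoly F x).natDegree →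
        x ^ (Nat.card F ^ a) ≠ x ^ (Nat.card F ^ b) := by
      intro a b hab hb h
      obtain ⟨c, rfl⟩ := Nat.exists_eq_add_of_lt hab
      have h1 : x = x ^ (Nat.card F ^ (c + 1)) := by
        apply pow_card_injective (F := F) a
        simp only
        rw [h, ← pow_mul, ← pow_add]
        congr 2
        omega
      have h2 : x ∈ FF F L (c + 1) := (mem_FF F (by omega)).mpr h1.symm
      rw [mem_FF_iff_dvd F (by omega)] at h2
      have := Nat.le_of_dvd (by omega) h2
      omega
    intro a ha b hb h
    simp only [Finset.coe_range, Set.mem_Iio] at ha hb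
    rcases lt_trichotomy a b with hab | hab | hab
    · exact absurd h (key a b hab hb)
    · exact hab
    · exact absurd h.symm (key b a hab ha)
  have hnd : (Multiset.map (fun i => x ^ (Nat.card F ^ i))
      (Multiset.range (minpoly F x).natDegree)).Nodup := by
    rw [← Finset.range_val]
    exact (Finset.nodup_map_iff_injOn).mpr hinj
  apply Multiset.eq_of_le_of_card_le
  · rw [Multiset.le_iff_subset hnd]
    intro y hy
    rw [Multiset.mem_map] at hy
    obtain ⟨i, _, rfl⟩ := hy
    rw [mem_roots h0, IsRoot.def, eval_map_algebraMap, aeval_pow_card, minpoly.aeval,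
      zero_pow (pow_pos Nat.card_pos _).ne']
  · refine (card_roots' _).trans ?_
    simp

lemma prod_range_periodic {M : Type*} [CommMonoid M] (G : ℕ → M) (d : ℕ)
    (hG : ∀ i, G (i + d) = G i) (k : ℕ) :
    ∏ i ∈ Finset.range (d * k), G i = (∏ i ∈ Finset.range d, G i) ^ k := by
  induction k with
  | zero => simp
  | succ k ih =>
    have hper : ∀ k i, G (d * k + i) = G i := by
      intro k
      induction k with
      | zero => simp
      | succ k ih =>
        intro i
        rw [show d * (k + 1) + i = d * k + i + d by ring, hG, ih]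
    rw [Nat.mul_succ, Finset.prod_range_add, ih, pow_succ]
    congr 1
    exact Finset.prod_congr rfl fun i _ => hper k i

variable [DecidableEq F] {f : F[X]}

lemma half_card_pow {q t : ℕ} (hq : q = 2 * t + 1) (j : ℕ) :
    q ^ j / 2 = (∑ i ∈ Finset.range j, q ^ i) * t := by
  have h1 : q ^ j = 2 * ((∑ i ∈ Finset.range j, q ^ i) * t) + 1 := by
    induction j with
    | zero => simp
    | succ j ih =>
      rw [Finset.sum_range_succ, pow_succ]
      have e : q ^ j * q = q ^ j * (2 * t + 1) := by rw [← hq]
      rw [e]
      linarith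
  omega

theorem aeval_pow_half [IsAlgClosed L] (hF : ringChar F ≠ 2) {j : ℕ} (hj : 0 < j) {x : L}
    (hx : x ∈ FF F L j) :
    (aeval x f) ^ (Nat.card F ^ j / 2) =
      ((chi f (minpoly F x) ^ (j / (minpoly F x).natDegree) : ℤ) : L) := by
  have hxi : IsIntegral F x := Algebra.IsIntegral.isIntegral x
  set d := (minpoly F x).natDegree with hd
  have hdj : d ∣ j := (mem_FF_iff_dvd F hj).mp hx
  -- the resultant as a product over the conjugates
  have hres : algebraMap F L (resultant (minpoly F x) f d f.natDegree) =
      ∏ i ∈ Finset.range d, aeval (x ^ (Nat.card F ^ i)) f := by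
    rw [← resultant_map_map]
    have h1 := resultant_eq_prod_eval ((minpoly F x).map (algebraMap F L))
      (f.map (algebraMap F L)) f.natDegree (natDegree_map_le) (IsAlgClosed.splits _)
    rw [natDegree_map, ← hd] at h1
    rw [h1, roots_minpoly, ((minpoly.monic hxi).map (algebraMap F L)).leadingCoeff, one_pow, one_mul,
      Multiset.map_map, ← Finset.range_val]
    rw [Finset.prod]
    congr 1
    apply Multiset.map_congr rfl
    intro i _
    simp [eval_map_algebraMap]
  have hper : ∀ i, aeval (x ^ (Nat.card F ^ (i + d))) f = aeval (x ^ (Nat.card F ^ i)) f := by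
    intro i
    have hxd : x ^ (Nat.card F ^ d) = x :=
      (mem_FF F (minpoly.natDegree_pos hxi)).mp
        ((mem_FF_iff_dvd F (minpoly.natDegree_pos hxi)).mpr dvd_rfl)
    rw [pow_add, mul_comm, pow_mul, hxd]
  have h2 : ∏ i ∈ Finset.range j, aeval (x ^ (Nat.card F ^ i)) f =
      (algebraMap F L (resultant (minpoly F x) f d f.natDegree)) ^ (j / d) := by
    rw [hres, ← prod_range_periodic (fun i => aeval (x ^ (Nat.card F ^ i)) f) d hper,
      Nat.mul_div_cancel' hdj]
  have h3 : ∏ i ∈ Finset.range j, aeval (x ^ (Nat.card F ^ i)) f =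
      (aeval x f) ^ (∑ i ∈ Finset.range j, Nat.card F ^ i) := by
    rw [← Finset.prod_pow_eq_pow_sum]
    exact Finset.prod_congr rfl fun i _ => aeval_pow_card f x i
  have hqodd : Nat.card F = 2 * (Nat.card F / 2) + 1 := by
    have := FiniteField.odd_card_of_char_ne_two hF
    rw [← Nat.card_eq_fintype_card] at this
    omega
  rw [half_card_pow hqodd, pow_mul, ← h3, h2, ← pow_mul, mul_comm, pow_mul]
  push_cast
  congr 1
  unfold chi
  rw [← hd, ← map_pow]
  have h4 := quadraticChar_eq_pow_of_char_ne_two' hF (resultant (minpoly F x) f d f.natDegree)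
  rw [← Nat.card_eq_fintype_card] at h4
  rw [← h4]
  simp

end

end Pool.Agent.H1.Weil
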