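import Pool.Agent.H1.Weil.LPoly

/-!
# Newton identities for the L-polynomial
-/

namespace Pool.Agent.H1.Weil

open Polynomial Finset

noncomputable section

section FF

variable (F : Type*) [Field F] [Finite F] (L : Type*) [Field L] [Algebra F L]

open Classical in
/-- The elements of `L` fixed by the `j`-th power of the Frobenius, that is, the subfield with
`q ^ j` elements, as a finite set (for `0 < j`). -/
def FF (j : ℕ) : Finset L := (X ^ (Nat.card F ^ j) - X : L[X]).roots.toFinset

variable {L}

lemma mem_FF {j : ℕ} (hj : 0 < j) {x : L} : x ∈ FF F L j ↔ x ^ (Nat.card F ^ j) = x := by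
  classical
  rw [FF, Multiset.mem_toFinset, mem_roots]
  · simp [sub_eq_zero]
  · exact FiniteField.X_pow_card_pow_sub_X_ne_zero _ hj.ne' Finite.one_lt_card

lemma mem_FF_iff_dvd [Algebra.IsAlgebraic F L] {j : ℕ} (hj : 0 < j) {x : L} :
    x ∈ FF F L j ↔ (minpoly F x).natDegree ∣ j := by
  have hx : IsIntegral F x := Algebra.IsIntegral.isIntegral x
  rw [mem_FF F hj, (minpoly.irreducible hx).natDegree_dvd_iff_dvd_X_pow_card_pow_sub_X,
    minpoly.dvd_iff]
  simp [sub_eq_zero]

lemma card_FF [IsAlgClosed L] {j : ℕ} (hj : 0 < j) : (FF F L j).card = Nat.card F ^ j := by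
  classical
  have := Fintype.ofFinite F
  obtain ⟨p, hp⟩ := CharP.exists F
  have hpp : Fact p.Prime := ⟨CharP.char_is_prime F p⟩
  have : CharP L p := charP_of_injective_algebraMap (algebraMap F L).injective p
  obtain ⟨n, -, hn⟩ := FiniteField.card F p
  have hsep : Separable (X ^ (Nat.card F ^ j) - X : L[X]) := by
    apply galois_poly_separable p
    rw [Nat.card_eq_fintype_card, hn]
    exact dvd_pow (dvd_pow_self p n.ne_zero) hj.ne'
  rw [FF, Multiset.toFinset_card_of_nodup (nodup_roots hsep),
    ← (IsAlgClosed.splits _).natDegree_eq_card_roots]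
  exact FiniteField.X_pow_card_pow_sub_X_natDegree_eq _ hj.ne' Finite.one_lt_card

end FF

section Mult

variable {F : Type*} [Field F] [Finite F] {L : Type*} [Field L] [Algebra F L]
  [Algebra.IsAlgebraic F L]

lemma rootMultiplicity_minpoly (x : L) :
    rootMultiplicity x ((minpoly F x).map (algebraMap F L)) = 1 := by
  have hx : IsIntegral F x := Algebra.IsIntegral.isIntegral x
  have hsep : (minpoly F x).Separable := Algebra.IsSeparable.isSeparable F x
  have h0 : (minpoly F x).map (algebraMap F L) ≠ 0 :=
    map_ne_zero (minpoly.ne_zero hx)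
  apply le_antisymm
  · exact rootMultiplicity_le_one_of_separable hsep.map x
  · rw [Nat.succ_le_iff, rootMultiplicity_pos h0]
    simp [IsRoot.def]

lemma dvd_iff_le_rootMultiplicity {h : F[X]} (hh : h ≠ 0) (x : L) (a : ℕ) :
    minpoly F x ^ a ∣ h ↔ a ≤ rootMultiplicity x (h.map (algebraMap F L)) := by
  have hx : IsIntegral F x := Algebra.IsIntegral.isIntegral x
  have h0 : (minpoly F x).map (algebraMap F L) ≠ 0 :=
    map_ne_zero (minpoly.ne_zero hx)
  have hh' : h.map (algebraMap F L) ≠ 0 := map_ne_zero hh
  constructor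
  · rintro ⟨k, rfl⟩
    rw [Polynomial.map_mul, Polynomial.map_pow] at hh' ⊢
    rw [rootMultiplicity_mul hh']
    have : rootMultiplicity x ((minpoly F x).map (algebraMap F L) ^ a) = a := by
      clear hh' hh
      induction a with
      | zero => simp
      | succ a ih =>
        rw [pow_succ, rootMultiplicity_mul (mul_ne_zero (pow_ne_zero _ h0) h0), ih,
          rootMultiplicity_minpoly]
    omega
  · intro hle
    induction a with
    | zero => simp
    | succ a ih =>
      obtain ⟨k, hk⟩ := ih (by omega)
      have hk' := hh'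
      rw [hk, Polynomial.map_mul, Polynomial.map_pow] at hk' hle
      rw [rootMultiplicity_mul hk'] at hle
      have : rootMultiplicity x ((minpoly F x).map (algebraMap F L) ^ a) = a := by
        clear hk' hk hle hh' hh ih
        induction a with
        | zero => simp
        | succ a ih =>
          rw [pow_succ, rootMultiplicity_mul (mul_ne_zero (pow_ne_zero _ h0) h0), ih,
            rootMultiplicity_minpoly]
      have hpos : 0 < rootMultiplicity x (k.map (algebraMap F L)) := by omega
      have hk0 : k.map (algebraMap F L) ≠ 0 := right_ne_zero_of_mul hk'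
      rw [rootMultiplicity_pos hk0] at hpos
      have : minpoly F x ∣ k := by
        rw [minpoly.dvd_iff]
        simpa [IsRoot.def] using hpos
      rw [pow_succ, hk]
      exact mul_dvd_mul_left _ this

end Mult

section Count

variable {F : Type*} [Field F] [Finite F] {L : Type*} [Field L] [Algebra F L]
  [Algebra.IsAlgebraic F L]

open Classical in
lemma card_filter_dvd {h : F[X]} (hh : h ≠ 0) (x : L) :
    ((Icc 1 h.natDegree).filter fun j => (minpoly F x).natDegree ∣ j ∧
      minpoly F x ^ (j / (minpoly F x).natDegree) ∣ h).card =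
      rootMultiplicity x (h.map (algebraMap F L)) := by
  have hx : IsIntegral F x := Algebra.IsIntegral.isIntegral x
  have hd : 0 < (minpoly F x).natDegree := minpoly.natDegree_pos hx
  set d := (minpoly F x).natDegree with hddef
  set v := rootMultiplicity x (h.map (algebraMap F L)) with hv
  have hcard : (Icc 1 v).card = v := by simp
  rw [← hcard]
  symm
  refine Finset.card_nbij' (fun a => a * d) (fun j => j / d) ?_ ?_ ?_ ?_
  · intro a ha
    simp only [coe_Icc, Set.mem_Icc] at ha
    have hdvd : minpoly F x ^ a ∣ h := (dvd_iff_le_rootMultiplicity hh x a).mpr ha.2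
    have hle : a * d ≤ h.natDegree := by
      have := natDegree_le_of_dvd hdvd hh
      rwa [natDegree_pow] at this
    simp only [coe_filter, mem_Icc, Set.mem_setOf_eq]
    refine ⟨⟨?_, hle⟩, Dvd.intro_left _ rfl, ?_⟩
    · exact Nat.mul_pos ha.1 hd
    · rwa [Nat.mul_div_cancel _ hd]
  · intro j hj
    simp only [coe_filter, mem_Icc, Set.mem_setOf_eq] at hj
    simp only [coe_Icc, Set.mem_Icc]
    refine ⟨?_, (dvd_iff_le_rootMultiplicity hh x _).mp hj.2.2⟩
    exact Nat.div_pos (Nat.le_of_dvd hj.1.1 hj.2.1) hd
  · intro a _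
    exact Nat.mul_div_cancel _ hd
  · intro j hj
    simp only [coe_filter, mem_Icc, Set.mem_setOf_eq] at hj
    exact Nat.div_mul_cancel hj.2.1

open Classical in
/-- Every monic polynomial `h` has `deg h` divisors, counted appropriately. -/
lemma natDegree_eq_sum [IsAlgClosed L] {h : F[X]} (hh : h.Monic) :
    h.natDegree = ∑ j ∈ Icc 1 h.natDegree, ((FF F L j).filter fun x =>
      minpoly F x ^ (j / (minpoly F x).natDegree) ∣ h).card := by
  have hh0 : h ≠ 0 := hh.ne_zero
  have hmap : h.map (algebraMap F L) ≠ 0 := map_ne_zero hh0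
  set R := (h.map (algebraMap F L)).roots.toFinset with hR
  have h1 : h.natDegree = ∑ x ∈ R, rootMultiplicity x (h.map (algebraMap F L)) := by
    rw [← natDegree_map (algebraMap F L) (p := h),
      (IsAlgClosed.splits (h.map (algebraMap F L))).natDegree_eq_card_roots,
      ← Multiset.toFinset_sum_count_eq]
    refine Finset.sum_congr rfl fun x _ => ?_
    rw [count_roots]
  conv_lhs => rw [h1]
  have h2 : ∀ j ∈ Icc 1 h.natDegree, ((FF F L j).filter fun x =>
      minpoly F x ^ (j / (minpoly F x).natDegree) ∣ h).card =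
      ∑ x ∈ R, if ((minpoly F x).natDegree ∣ j ∧
        minpoly F x ^ (j / (minpoly F x).natDegree) ∣ h) then 1 else 0 := by
    intro j hj
    rw [mem_Icc] at hj
    rw [← Finset.card_filter]
    congr 1
    ext x
    have hx : IsIntegral F x := Algebra.IsIntegral.isIntegral x
    simp only [mem_filter, mem_FF_iff_dvd F (by omega : 0 < j)]
    constructor
    · rintro ⟨h3, h4⟩
      refine ⟨?_, h3, h4⟩
      rw [hR, Multiset.mem_toFinset, mem_roots hmap, IsRoot.def, eval_map_algebraMap]
      rw [← minpoly.dvd_iff]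
      refine dvd_trans ?_ h4
      apply dvd_pow_self
      have := Nat.div_pos (Nat.le_of_dvd (by omega) h3) (minpoly.natDegree_pos hx)
      omega
    · rintro ⟨_, h3, h4⟩
      exact ⟨h3, h4⟩
  rw [Finset.sum_congr rfl h2, Finset.sum_comm]
  refine Finset.sum_congr rfl fun x _ => ?_
  rw [← Finset.card_filter, card_filter_dvd hh0 x]

end Count

section NewtonId

variable {F : Type*} [Field F] [Fintype F] [DecidableEq F] (f : F[X]) (L : Type*) [Field L]
  [Algebra F L] [Algebra.IsAlgebraic F L]

/-- The sums `S_j = ∑_{x ∈ F_j} χ_j (f x)`, written through minimal polynomials. -/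
def SS (j : ℕ) : ℤ :=
  ∑ x ∈ FF F L j, chi f (minpoly F x) ^ (j / (minpoly F x).natDegree)

variable {f L}

open Classical in
lemma sum_filter_dvd {n j : ℕ} (hj : j ≤ n) {P : F[X]} (hP : P.Monic) (hPj : P.natDegree = j) :
    ∑ h ∈ (monics F n).filter (fun h => P ∣ h), chi f h = chi f P * cc f (n - j) := by
  rw [cc, Finset.mul_sum]
  symm
  refine Finset.sum_bij (fun k _ => P * k) ?_ ?_ ?_ ?_
  · intro k hk
    rw [mem_monics] at hk
    rw [mem_filter, mem_monics]
    refine ⟨⟨hP.mul hk.1, ?_⟩, dvd_mul_right _ _⟩
    rw [hP.natDegree_mul hk.1, hPj, hk.2]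
    omega
  · intro k _ l _ h
    exact mul_left_cancel₀ hP.ne_zero h
  · intro h hh
    rw [mem_filter, mem_monics] at hh
    obtain ⟨⟨h1, h2⟩, k, rfl⟩ := hh
    have hk : k.Monic := hP.of_mul_monic_left h1
    refine ⟨k, ?_, rfl⟩
    rw [mem_monics]
    refine ⟨hk, ?_⟩
    rw [hP.natDegree_mul hk] at h2
    omega
  · intro k hk
    rw [mem_monics] at hk
    rw [chi_mul f hP.ne_zero hk.1.ne_zero]

lemma monic_minpoly_pow (x : L) (a : ℕ) : (minpoly F x ^ a).Monic :=
  (minpoly.monic (Algebra.IsIntegral.isIntegral x)).pow a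

theorem newton [IsAlgClosed L] (n : ℕ) :
    (n : ℤ) * cc f n = ∑ j ∈ Icc 1 n, SS f L j * cc f (n - j) := by
  classical
  calc (n : ℤ) * cc f n = ∑ h ∈ monics F n, chi f h * (h.natDegree : ℤ) := by
        rw [cc, Finset.mul_sum]
        refine Finset.sum_congr rfl fun h hh => ?_
        rw [mem_monics] at hh
        rw [hh.2, mul_comm]
    _ = ∑ h ∈ monics F n, ∑ j ∈ Icc 1 n, ∑ x ∈ FF F L j,
          if minpoly F x ^ (j / (minpoly F x).natDegree) ∣ h then chi f h else 0 := by
        refine Finset.sum_congr rfl fun h hh => ?_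
        rw [mem_monics] at hh
        rw [natDegree_eq_sum (L := L) hh.1, hh.2]
        push_cast
        rw [Finset.mul_sum]
        refine Finset.sum_congr rfl fun j _ => ?_
        rw [Finset.card_filter]
        push_cast
        rw [Finset.mul_sum]
        refine Finset.sum_congr rfl fun x _ => ?_
        split_ifs <;> simp
    _ = ∑ j ∈ Icc 1 n, ∑ x ∈ FF F L j, ∑ h ∈ monics F n,
          if minpoly F x ^ (j / (minpoly F x).natDegree) ∣ h then chi f h else 0 := by
        rw [Finset.sum_comm]
        refine Finset.sum_congr rfl fun j _ => ?_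
        rw [Finset.sum_comm]
    _ = ∑ j ∈ Icc 1 n, SS f L j * cc f (n - j) := by
        refine Finset.sum_congr rfl fun j hj => ?_
        rw [mem_Icc] at hj
        rw [SS, Finset.sum_mul]
        refine Finset.sum_congr rfl fun x hx => ?_
        rw [mem_FF_iff_dvd F (by omega : 0 < j)] at hx
        rw [← Finset.sum_filter, sum_filter_dvd hj.2 (monic_minpoly_pow x _) ?_, chi_pow]
        · exact minpoly.ne_zero (Algebra.IsIntegral.isIntegral x)
        · rw [natDegree_pow]
          exact Nat.div_mul_cancel hx

end NewtonId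

end

end Pool.Agent.H1.Weil
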