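import Pool.Agent.H1.Weil.Bound

/-!
# Weil's theorem for hyperelliptic curves `y ^ 2 = f x`, `deg f` odd
-/

namespace Pool.Agent.H1.Weil

open Polynomial Finset Filter Topology

noncomputable section

section Growth

lemma exists_pow_close {n : ℕ} (u : Fin n → ℂ) (hu : ∀ i, ‖u i‖ = 1) (N : ℕ) :
    ∃ k, N ≤ k ∧ ∀ i, ‖u i ^ k - 1‖ ≤ 1 / 2 := by
  let v : ℕ → (Fin n → ℂ) := fun k i => u i ^ ((N + 1) * k)
  have hb : ∀ k, v k ∈ Metric.closedBall (0 : Fin n → ℂ) 1 := by
    intro k
    rw [mem_closedBall_zero_iff, pi_norm_le_iff_of_nonneg zero_le_one]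
    intro i
    simp [v, hu]
  obtain ⟨a, -, φ, hφ, hlim⟩ := tendsto_subseq_of_bounded Metric.isBounded_closedBall hb
  have hcauchy := hlim.cauchySeq
  rw [Metric.cauchySeq_iff'] at hcauchy
  obtain ⟨l, hl⟩ := hcauchy (1 / 2) (by norm_num)
  have h1 := hl (l + 1) (by omega)
  have hlt : φ l < φ (l + 1) := hφ (Nat.lt_succ_self l)
  refine ⟨(N + 1) * (φ (l + 1) - φ l), ?_, ?_⟩
  · have : 1 ≤ φ (l + 1) - φ l := by omega
    nlinarith
  · intro i
    have h2 : ‖v (φ (l + 1)) i - v (φ l) i‖ ≤ 1 / 2 := by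
      have := (norm_le_pi_norm (v (φ (l + 1)) - v (φ l)) i)
      rw [Function.comp_apply, Function.comp_apply, dist_eq_norm] at h1
      exact this.trans h1.le
    have h3 : v (φ (l + 1)) i - v (φ l) i =
        v (φ l) i * (u i ^ ((N + 1) * (φ (l + 1) - φ l)) - 1) := by
      simp only [v]
      rw [mul_sub, ← pow_add, mul_one]
      congr 2
      rw [← mul_add]
      congr 1
      omega
    rw [h3, norm_mul] at h2
    simpa [v, hu] using h2

lemma norm_le_of_powerSum_le {n : ℕ} (z : Fin n → ℂ) {R C : ℝ} (hR : 0 < R) (N : ℕ)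
    (h : ∀ k, N ≤ k → ‖∑ i, z i ^ k‖ ≤ C * R ^ k) (i : Fin n) : ‖z i‖ ≤ R := by
  by_contra hcon
  push Not at hcon
  set M := ‖z i‖ with hM
  have hMR : 1 < M / R := by rwa [one_lt_div hR]
  -- unit vectors
  let u : Fin n → ℂ := fun i => if z i = 0 then 1 else z i / ‖z i‖
  have hu : ∀ i, ‖u i‖ = 1 := by
    intro i
    by_cases h0 : z i = 0
    · simp [u, h0]
    · simp [u, h0]
  have hz : ∀ i, z i = ‖z i‖ * u i := by
    intro i
    by_cases h0 : z i = 0
    · simp [u, h0]
    · have h1 : (‖z i‖ : ℂ) ≠ 0 := by simp [h0]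
      simp only [u, h0, if_false]
      rw [mul_div_cancel₀ _ h1]
  obtain ⟨N', hN'⟩ := (tendsto_pow_atTop_atTop_of_one_lt hMR).eventually_gt_atTop (2 * C)
    |>.exists_forall_of_atTop
  obtain ⟨k, hk, hk2⟩ := exists_pow_close u hu (max N N' + 1)
  have hk1 : N ≤ k := by omega
  have hkN' : N' ≤ k := by omega
  have hre : ∀ i, ‖z i‖ ^ k / 2 ≤ (z i ^ k).re := by
    intro i
    have h1 : (z i ^ k) = ((‖z i‖ ^ k : ℝ) : ℂ) * u i ^ k := by
      conv_lhs => rw [hz i, mul_pow]
      push_cast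
      rfl
    rw [h1, Complex.re_ofReal_mul]
    have h2 : 1 / 2 ≤ (u i ^ k).re := by
      have h3 := (Complex.abs_re_le_norm (u i ^ k - 1)).trans (hk2 i)
      rw [Complex.sub_re, Complex.one_re, abs_le] at h3
      linarith [h3.1]
    have h4 : 0 ≤ ‖z i‖ ^ k := by positivity
    nlinarith
  have h5 : M ^ k / 2 ≤ ‖∑ i, z i ^ k‖ := by
    refine le_trans ?_ ((Complex.re_le_norm _))
    rw [Complex.re_sum]
    calc M ^ k / 2 ≤ (z i ^ k).re := hre i
      _ ≤ ∑ j, (z j ^ k).re := by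
        apply Finset.single_le_sum (f := fun j => (z j ^ k).re) _ (mem_univ i)
        intro j _
        exact le_trans (by positivity) (hre j)
  have h6 := h5.trans (h k hk1)
  have h7 := hN' k hkN'
  rw [div_pow, lt_div_iff₀ (by positivity)] at h7
  linarith

end Growth

section Main

lemma exists_enum (s : Multiset ℂ) (n : ℕ) (hn : Multiset.card s = n) :
    ∃ ω : Fin n → ℂ, (Finset.univ.val.map ω : Multiset ℂ) = s := by
  subst hn
  obtain ⟨l, rfl⟩ : ∃ l : List ℂ, (l : Multiset ℂ) = s := ⟨s.toList, Multiset.coe_toList s⟩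
  refine ⟨fun i => l.get (Fin.cast (Multiset.coe_card l) i), ?_⟩
  rw [Fin.univ_val_map]
  congr 1
  apply List.ext_get
  · simp
  · intro n h1 h2
    simp

variable {F : Type*} [Field F] [Fintype F] [DecidableEq F] {f : F[X]}

/-- The L-polynomial reversed: `T ^ (2 g) + c_1 T ^ (2 g - 1) + ... + c_(2 g)`. -/
def revL (f : F[X]) (g : ℕ) : ℂ[X] :=
  X ^ (2 * g) + ∑ k ∈ Finset.range (2 * g), C (cc f (2 * g - k) : ℂ) * X ^ k

lemma revL_sum_degree (f : F[X]) (g : ℕ) :
    (∑ k ∈ Finset.range (2 * g), C (cc f (2 * g - k) : ℂ) * X ^ k : ℂ[X]).degree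
      < ((2 * g : ℕ) : WithBot ℕ) := by
  refine lt_of_le_of_lt (degree_sum_le _ _) ?_
  rw [Finset.sup_lt_iff (WithBot.bot_lt_coe _)]
  intro k hk
  refine lt_of_le_of_lt (degree_C_mul_X_pow_le _ _) ?_
  exact_mod_cast Finset.mem_range.mp hk

lemma revL_monic (f : F[X]) (g : ℕ) : (revL f g).Monic :=
  monic_X_pow_add (revL_sum_degree f g)

lemma revL_natDegree (f : F[X]) (g : ℕ) : (revL f g).natDegree = 2 * g := by
  have : (revL f g).degree = ((2 * g : ℕ) : WithBot ℕ) := by
    rw [revL, degree_add_eq_left_of_degree_lt]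
    · simp
    · simpa using revL_sum_degree f g
  exact natDegree_eq_of_degree_eq_some this

lemma revL_coeff (f : F[X]) (g : ℕ) {n : ℕ} (hn : n ≤ 2 * g) :
    (revL f g).coeff (2 * g - n) = (cc f n : ℂ) := by
  rw [revL, coeff_add, coeff_X_pow, finsetSum_coeff]
  rcases Nat.eq_zero_or_pos n with rfl | hpos
  · simp only [tsub_zero, if_true]
    rw [Finset.sum_eq_zero, cc_zero]
    · simp
    · intro k hk
      rw [Finset.mem_range] at hk
      rw [coeff_C_mul, coeff_X_pow, if_neg (by omega), mul_zero]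
  · rw [if_neg (by omega), Finset.sum_eq_single (2 * g - n)]
    · rw [coeff_C_mul, coeff_X_pow, if_pos rfl, mul_one, zero_add]
      congr 2
      omega
    · intro k _ hk
      rw [coeff_C_mul, coeff_X_pow, if_neg (fun h => hk h.symm), mul_zero]
    · intro h
      rw [Finset.mem_range] at h
      omega

variable {L : Type*} [Field L] [Algebra F L] [Algebra.IsAlgebraic F L]

theorem exists_eigenvalues_aux [IsAlgClosed L] (hF : ringChar F ≠ 2) {g : ℕ}
    (hf : f.natDegree = 2 * g + 1) :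
    ∃ ω : Fin (2 * g) → ℂ, ∀ n, 0 < n → (SS f L n : ℂ) = - ∑ i, ω i ^ n := by
  classical
  -- enumerate the roots
  have hcard : Multiset.card (revL f g).roots = 2 * g := by
    rw [← (IsAlgClosed.splits (revL f g)).natDegree_eq_card_roots, revL_natDegree]
  obtain ⟨ω, hω⟩ : ∃ ω : Fin (2 * g) → ℂ,
      (Finset.univ.val.map ω : Multiset ℂ) = (revL f g).roots := exists_enum _ _ hcard
  refine ⟨ω, ?_⟩
  -- elementary symmetric functions
  have hesymm : ∀ n, MvPolynomial.aeval ω (MvPolynomial.esymm (Fin (2 * g)) ℂ n) =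
      (-1) ^ n * (cc f n : ℂ) := by
    intro n
    rw [MvPolynomial.aeval_esymm_eq_multiset_esymm, hω]
    rcases le_or_gt n (2 * g) with hn | hn
    · have h1 := coeff_eq_esymm_roots_of_card
        (splits_iff_card_roots.mp (IsAlgClosed.splits (revL f g)))
        (k := 2 * g - n) (by rw [revL_natDegree]; omega)
      rw [revL_coeff f g hn, revL_natDegree, (revL_monic f g).leadingCoeff, one_mul,
        Nat.sub_sub_self hn] at h1
      rw [h1, ← mul_assoc, ← mul_pow]
      simp
    · rw [cc_eq_zero hF (by rw [hf]; exact ⟨g, rfl⟩) (by omega)]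
      rw [Multiset.esymm, Multiset.powersetCard_eq_empty]
      · simp
      · rw [hcard]; exact hn
  have hpsum : ∀ n, MvPolynomial.aeval ω (MvPolynomial.psum (Fin (2 * g)) ℂ n) =
      ∑ i, ω i ^ n := by
    intro n
    simp [MvPolynomial.psum]
  -- Newton's identities
  have hnewton : ∀ n : ℕ, (n : ℂ) * (cc f n : ℂ) =
      - ∑ j ∈ Icc 1 n, (∑ i, ω i ^ j) * (cc f (n - j) : ℂ) := by
    intro n
    have h1 := congrArg (MvPolynomial.aeval ω) (MvPolynomial.mul_esymm_eq_sum (Fin (2 * g)) ℂ n)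
    simp only [map_mul, map_natCast, map_sum, map_pow, map_neg, map_one, hesymm, hpsum] at h1
    have h2 : (∑ a ∈ (antidiagonal n).filter (fun a => a.1 < n),
        (-1 : ℂ) ^ a.1 * ((-1) ^ a.1 * (cc f a.1 : ℂ)) * ∑ i, ω i ^ a.2) =
        ∑ j ∈ Icc 1 n, (∑ i, ω i ^ j) * (cc f (n - j) : ℂ) := by
      refine Finset.sum_nbij' (fun a => a.2) (fun j => (n - j, j)) ?_ ?_ ?_ ?_ ?_
      · intro a ha
        rw [mem_filter, HasAntidiagonal.mem_antidiagonal] at ha
        rw [mem_Icc]
        omega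
      · intro j hj
        rw [mem_Icc] at hj
        rw [mem_filter, HasAntidiagonal.mem_antidiagonal]
        omega
      · intro a ha
        rw [mem_filter, HasAntidiagonal.mem_antidiagonal] at ha
        ext
        · simp; omega
        · simp
      · intro j _; rfl
      · intro a ha
        rw [mem_filter, HasAntidiagonal.mem_antidiagonal] at ha
        rw [← mul_assoc, ← mul_pow, show n - a.2 = a.1 by omega]
        simp
        ring
    rw [h2] at h1
    have h3 : ((-1 : ℂ) ^ n) * ((-1) ^ n) = 1 := by rw [← mul_pow]; simp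
    calc (n : ℂ) * (cc f n : ℂ) = ((-1 : ℂ) ^ n) * ((n : ℂ) * ((-1) ^ n * (cc f n : ℂ))) := by
          rw [show ((-1 : ℂ) ^ n) * ((n : ℂ) * ((-1) ^ n * (cc f n : ℂ))) =
            (((-1 : ℂ) ^ n) * ((-1) ^ n)) * ((n : ℂ) * (cc f n : ℂ)) by ring, h3, one_mul]
      _ = - ∑ j ∈ Icc 1 n, (∑ i, ω i ^ j) * (cc f (n - j) : ℂ) := by
          rw [h1, pow_succ, ← mul_assoc, ← mul_assoc, h3]
          ring
  -- comparison
  intro n
  induction n using Nat.strong_induction_on with
  | _ n ih =>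
    intro hn
    have h1 := hnewton n
    have h2 := newton (f := f) (L := L) n
    have h3 : (n : ℂ) * (cc f n : ℂ) = ∑ j ∈ Icc 1 n, (SS f L j : ℂ) * (cc f (n - j) : ℂ) := by
      exact_mod_cast h2
    have h4 : Icc 1 n = insert n (Icc 1 (n - 1)) := by
      ext j
      simp only [mem_Icc, mem_insert]
      omega
    have h5 : n ∉ Icc 1 (n - 1) := by
      simp only [mem_Icc]
      omega
    rw [h4, Finset.sum_insert h5, Nat.sub_self, cc_zero] at h1 h3
    rw [h3] at h1
    have h6 : ∑ j ∈ Icc 1 (n - 1), (SS f L j : ℂ) * (cc f (n - j) : ℂ) =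
        ∑ j ∈ Icc 1 (n - 1), (-∑ i, ω i ^ j) * (cc f (n - j) : ℂ) := by
      refine Finset.sum_congr rfl fun j hj => ?_
      rw [mem_Icc] at hj
      rw [ih j (by omega) (by omega)]
    rw [h6] at h1
    simp only [neg_mul, Finset.sum_neg_distrib] at h1
    push_cast at h1
    linear_combination h1

/-- **Weil's theorem** for the hyperelliptic curve `y ^ 2 = f x` over the finite field `F` with `q`
elements: there are complex numbers `ω_1, ..., ω_(2 g)` of absolute value at most `√q` such that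
`∑_{x ∈ F_(q ^ n)} χ_n (f x) = - ∑ ω_i ^ n` for all `n ≥ 1`. -/
theorem exists_eigenvalues [IsAlgClosed L] (hF : ringChar F ≠ 2) {g : ℕ}
    (hf : f.natDegree = 2 * g + 1) :
    ∃ ω : Fin (2 * g) → ℂ, (∀ i, ‖ω i‖ ≤ Real.sqrt (Nat.card F)) ∧
      ∀ n, 0 < n → (SS f L n : ℂ) = - ∑ i, ω i ^ n := by
  obtain ⟨ω, hω⟩ := exists_eigenvalues_aux (L := L) hF hf
  refine ⟨ω, fun i => ?_, hω⟩
  have hq : (1 : ℝ) < Nat.card F := by exact_mod_cast (Finite.one_lt_card : 1 < Nat.card F)
  -- apply the growth lemma to the squares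
  have h1 : ‖ω i ^ 2‖ ≤ (Nat.card F : ℝ) := by
    apply norm_le_of_powerSum_le (fun i => ω i ^ 2) (R := Nat.card F) (C := 2 * g + 1)
      (by linarith) (2 * g + 4)
    intro k hk
    have hk0 : 0 < k := by omega
    have h2 : ∑ i, (ω i ^ 2) ^ k = - (SS f L (2 * k) : ℂ) := by
      rw [hω (2 * k) (by omega), neg_neg]
      refine Finset.sum_congr rfl fun i _ => ?_
      rw [← pow_mul]
    rw [h2, norm_neg]
    have hodd : Nat.card F % 2 = 1 := by
      rw [Nat.card_eq_fintype_card]; exact FiniteField.odd_card_of_char_ne_two hF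
    have hoddk : Nat.card F ^ k % 2 = 1 := by
      rw [Nat.pow_mod, hodd, one_pow, Nat.one_mod]
    have hlt : k < Nat.card F ^ k := Nat.lt_pow_self Finite.one_lt_card
    have hlt2 : 2 * k < Nat.card F ^ k := by
      have h3 : 3 ≤ Nat.card F := by
        have : 1 < Nat.card F := Finite.one_lt_card
        omega
      have h4 : 3 ^ k ≤ Nat.card F ^ k := Nat.pow_le_pow_left h3 k
      have h5 : 2 * k < 3 ^ k := by
        clear hlt hk hk0 h2 hoddk h4
        induction k with
        | zero => simp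
        | succ k ih => rw [pow_succ]; omega
      omega
    have h3 := abs_SS_even_le (L := L) hF hk0 (κ := Nat.card F ^ k / 2) (g := g) (by omega)
      (by omega) hf
    have h4 : ‖(SS f L (2 * k) : ℂ)‖ = ((|SS f L (2 * k)| : ℤ) : ℝ) := by
      rw [Complex.norm_intCast]
      push_cast
      rfl
    rw [h4]
    calc ((|SS f L (2 * k)| : ℤ) : ℝ) ≤ (((2 * g + 1) * (Nat.card F : ℤ) ^ k : ℤ) : ℝ) := by
          exact_mod_cast h3
      _ = (2 * g + 1) * (Nat.card F : ℝ) ^ k := by push_cast; ring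
  rw [norm_pow] at h1
  exact Real.le_sqrt_of_sq_le h1

end Main

end

end Pool.Agent.H1.Weil
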